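import Pool.Agent.J6H39.CG.Stm
import Pool.Agent.J6H39.CG.Base

/-! Project CG, module PH: the functional equation for the multiplier. -/

set_option autoImplicit false

open MeasureTheory Set Filter Topology Complex
open scoped FourierTransform ContDiff

namespace Pool.Agent.J6H59.CG

open Pool.Agent.J6H39.CG
open H345 (XX)

/-- the factor of the functional equation on the critical line -/
noncomputable def Xh (t : ℝ) : ℂ := XX (1 / 2 + (t : ℂ) * I)

theorem norm_Xh (t : ℝ) : ‖Xh t‖ = 1 := H345.norm_XX_half t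

theorem conj_half (t : ℝ) : 1 - (1 / 2 + (t : ℂ) * I) = (starRingEnd ℂ) (1 / 2 + (t : ℂ) * I) := by
  rw [map_add, map_div₀, map_one, map_mul, H345.Chi.conj_two, conj_ofReal, conj_I]
  ring

theorem fe_half (t : ℝ) : (starRingEnd ℂ) (zh t) = Xh t * zh t := by
  have h := H345.zeta_fe (1 / 2 + (t : ℂ) * I) (by
    intro n hn
    have := congrArg Complex.re hn
    simp at this
    have h2 : (0 : ℝ) ≤ n := Nat.cast_nonneg n
    linarith) (by
    intro hn
    have := congrArg Complex.re hn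
    simp at this)
  rw [conj_half, riemannZeta_conj] at h
  exact h

theorem Xh_mul_conj (t : ℝ) : (starRingEnd ℂ) (Xh t) * Xh t = 1 := by
  rw [mul_comm, Complex.mul_conj, Complex.normSq_eq_norm_sq, norm_Xh]
  simp

theorem zh_fe (t : ℝ) : zh t = (starRingEnd ℂ) (Xh t) * (starRingEnd ℂ) (zh t) := by
  rw [fe_half, ← mul_assoc, Xh_mul_conj, one_mul]

theorem zh_pow_fe (k : ℕ) (t : ℝ) :
    zh t ^ k = (starRingEnd ℂ) (Xh t) ^ k * (starRingEnd ℂ) (zh t ^ k) := by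
  rw [map_pow, ← mul_pow, ← zh_fe]

theorem pow_sub_le {a b : ℂ} (ha : ‖a‖ = 1) (hb : ‖b‖ = 1) (k : ℕ) : ‖a ^ k - b ^ k‖ ≤ k * ‖a - b‖ := by
  induction k with
  | zero => simp
  | succ k ih =>
    have h1 : a ^ (k + 1) - b ^ (k + 1) = a * (a ^ k - b ^ k) + (a - b) * b ^ k := by ring
    rw [h1]
    refine (norm_add_le _ _).trans ?_
    rw [norm_mul, norm_mul, norm_pow, ha, hb, one_pow, one_mul, mul_one]
    push_cast
    linarith

theorem conj_exp_real (x : ℝ) : (starRingEnd ℂ) (cexp ((x : ℂ) * I)) = cexp (-((x : ℂ) * I)) := by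
  rw [← Complex.exp_conj, map_mul, conj_ofReal, conj_I, mul_neg]

theorem local_bound (c C : ℝ) (hc : 0 < c) (hcC : c ≤ C) : ∃ K T₀ : ℝ, 0 ≤ K ∧ Real.exp 7 ≤ T₀ ∧
    ∀ T : ℝ, T₀ ≤ T → ∀ t : ℝ, c * T ≤ t → t ≤ C * T → ∀ ξ : ℝ,
      ‖cexp (((2 * Real.pi * ξ : ℝ) : ℂ) * I) * Xh (t - hh T * ξ) - Xh t‖ ≤
        K / Real.log T * (1 + ξ ^ 2) := by
  obtain ⟨C1, T1, hC1, hT1, hX⟩ := H345.XX_local
  have hpi := Real.pi_pos
  set D : ℝ := |Real.log c| + |Real.log C| + |Real.log (2 * Real.pi)| with hD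
  have hD0 : 0 ≤ D := by positivity
  refine ⟨C1 / c + 8 / c + 2 * Real.pi * D, max (Real.exp 7) (T1 / c), by positivity, le_max_left _ _, ?_⟩
  intro T hT t ht1 ht2 ξ
  have hT7 : Real.exp 7 ≤ T := (le_max_left _ _).trans hT
  have hTT1 : T1 / c ≤ T := (le_max_right _ _).trans hT
  have hT0 : 0 < T := (Real.exp_pos 7).trans_le hT7
  have hL7 : 7 ≤ Real.log T := (Real.le_log_iff_exp_le hT0).2 hT7
  have hL0 : 0 < Real.log T := by linarith
  have hLT : Real.log T ≤ T := by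
    have := Real.log_le_sub_one_of_pos hT0
    linarith
  have hcT : T1 ≤ c * T := by
    rw [div_le_iff₀ hc] at hTT1
    linarith
  have htT1 : T1 ≤ t := hcT.trans ht1
  have ht2' : 2 ≤ t := hT1.trans htT1
  have ht0 : 0 < t := by linarith
  have hC0 : 0 < C := lt_of_lt_of_le hc hcC
  have hh0 : 0 ≤ hh T := by unfold hh; positivity
  have hh1 : hh T ≤ 1 := by
    unfold hh
    rw [div_le_one hL0]
    have := Real.pi_lt_d2
    linarith
  have hcL : c * Real.log T ≤ t := (mul_le_mul_of_nonneg_left hLT hc.le).trans ht1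
  have hinv : 1 / t ≤ 1 / c / Real.log T := by
    rw [div_div]
    exact one_div_le_one_div_of_le (by positivity) hcL
  have hE : ∀ x : ℝ, ‖cexp ((x : ℂ) * I)‖ = 1 := fun x => Complex.norm_exp_ofReal_mul_I x
  by_cases hcase : |hh T * ξ| ≤ t / 2
  · have h1 := hX t htT1 (-(hh T * ξ)) (by rw [abs_neg]; exact hcase)
    have h2 : ‖Xh (t - hh T * ξ) -
        Xh t * cexp (((-(hh T * ξ) * Real.log (t / (2 * Real.pi)) : ℝ) : ℂ) * I)‖ ≤ C1 * (1 + ξ ^ 2) / t := by
      have h3 : C1 * (1 + (-(hh T * ξ)) ^ 2) / t ≤ C1 * (1 + ξ ^ 2) / t := by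
        have : (-(hh T * ξ)) ^ 2 ≤ ξ ^ 2 := by
          rw [neg_sq, mul_pow]
          have h5 : hh T ^ 2 ≤ 1 := by nlinarith
          nlinarith [sq_nonneg ξ]
        gcongr
      refine le_trans ?_ h3
      refine le_of_eq_of_le ?_ h1
      rw [Xh, Xh, sub_eq_add_neg t]
    have h3 : C1 * (1 + ξ ^ 2) / t ≤ C1 / c / Real.log T * (1 + ξ ^ 2) := by
      have : C1 * (1 + ξ ^ 2) / t = C1 * (1 + ξ ^ 2) * (1 / t) := by ring
      rw [this]
      have : C1 / c / Real.log T * (1 + ξ ^ 2) = C1 * (1 + ξ ^ 2) * (1 / c / Real.log T) := by ring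
      rw [this]
      gcongr
    set α : ℝ := -(hh T * ξ) * Real.log (t / (2 * Real.pi)) with hα
    have h4 : cexp (((2 * Real.pi * ξ : ℝ) : ℂ) * I) * Xh (t - hh T * ξ) - Xh t =
        cexp (((2 * Real.pi * ξ : ℝ) : ℂ) * I) * (Xh (t - hh T * ξ) - Xh t * cexp ((α : ℂ) * I)) +
        Xh t * (cexp (((2 * Real.pi * ξ + α : ℝ) : ℂ) * I) - 1) := by
      have : cexp (((2 * Real.pi * ξ + α : ℝ) : ℂ) * I) =
          cexp (((2 * Real.pi * ξ : ℝ) : ℂ) * I) * cexp ((α : ℂ) * I) := by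
        rw [← Complex.exp_add]
        congr 1
        push_cast
        ring
      rw [this]
      ring
    rw [h4]
    refine (norm_add_le _ _).trans ?_
    rw [norm_mul, norm_mul, hE, one_mul, norm_Xh, one_mul]
    have h5 : ‖cexp (((2 * Real.pi * ξ + α : ℝ) : ℂ) * I) - 1‖ ≤ |2 * Real.pi * ξ + α| := by
      have := Real.norm_exp_I_mul_ofReal_sub_one_le (x := 2 * Real.pi * ξ + α)
      rw [mul_comm] at this
      simpa using this
    have h6 : 2 * Real.pi * ξ + α = 2 * Real.pi * ξ * ((Real.log T - Real.log (t / (2 * Real.pi))) / Real.log T) := by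
      rw [hα, hh]
      field_simp
      ring
    have h7 : |Real.log T - Real.log (t / (2 * Real.pi))| ≤ D := by
      have e1 : Real.log (t / (2 * Real.pi)) = Real.log t - Real.log (2 * Real.pi) :=
        Real.log_div ht0.ne' (by positivity)
      have e2 : Real.log t ≤ Real.log C + Real.log T := by
        rw [← Real.log_mul hC0.ne' hT0.ne']
        exact Real.log_le_log ht0 ht2
      have e3 : Real.log c + Real.log T ≤ Real.log t := by
        rw [← Real.log_mul hc.ne' hT0.ne']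
        exact Real.log_le_log (by positivity) ht1
      rw [e1, abs_le, hD]
      have a1 := neg_abs_le (Real.log c)
      have a2 := le_abs_self (Real.log C)
      have a3 := neg_abs_le (Real.log (2 * Real.pi))
      have a4 := le_abs_self (Real.log (2 * Real.pi))
      have a5 := abs_nonneg (Real.log c)
      have a6 := abs_nonneg (Real.log C)
      constructor <;> linarith
    have h8 : |2 * Real.pi * ξ + α| ≤ 2 * Real.pi * D / Real.log T * (1 + ξ ^ 2) := by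
      rw [h6, abs_mul, abs_mul, abs_div, abs_of_pos (show (0:ℝ) < 2 * Real.pi by positivity), abs_of_pos hL0]
      have h9 : |ξ| ≤ 1 + ξ ^ 2 := by
        have := sq_abs ξ
        nlinarith [sq_nonneg (|ξ| - 1), abs_nonneg ξ]
      calc 2 * Real.pi * |ξ| * (|Real.log T - Real.log (t / (2 * Real.pi))| / Real.log T)
          ≤ 2 * Real.pi * (1 + ξ ^ 2) * (D / Real.log T) := by gcongr
        _ = 2 * Real.pi * D / Real.log T * (1 + ξ ^ 2) := by ring
    have h10 : 0 ≤ 8 / c / Real.log T * (1 + ξ ^ 2) := by positivity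
    calc _ ≤ C1 / c / Real.log T * (1 + ξ ^ 2) + 2 * Real.pi * D / Real.log T * (1 + ξ ^ 2) :=
          add_le_add (h2.trans h3) (h5.trans h8)
      _ ≤ C1 / c / Real.log T * (1 + ξ ^ 2) + 2 * Real.pi * D / Real.log T * (1 + ξ ^ 2) +
          8 / c / Real.log T * (1 + ξ ^ 2) := by linarith
      _ = (C1 / c + 8 / c + 2 * Real.pi * D) / Real.log T * (1 + ξ ^ 2) := by ring
  · rw [not_le] at hcase
    have h1 : ‖cexp (((2 * Real.pi * ξ : ℝ) : ℂ) * I) * Xh (t - hh T * ξ) - Xh t‖ ≤ 2 := by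
      refine (norm_sub_le _ _).trans ?_
      rw [norm_mul, hE, norm_Xh, norm_Xh]
      norm_num
    have h2 : t / 2 ≤ |ξ| := by
      rw [abs_mul, abs_of_nonneg hh0] at hcase
      nlinarith [abs_nonneg ξ]
    have h3 : 1 ≤ |ξ| * (2 / t) := by
      rw [mul_div_assoc', le_div_iff₀ ht0]
      linarith
    have h4 : 2 ≤ 8 / t * (1 + ξ ^ 2) := by
      have e1 : (1 : ℝ) ≤ (|ξ| * (2 / t)) ^ 2 := one_le_pow₀ h3
      have e2 : (|ξ| * (2 / t)) ^ 2 = 4 * ξ ^ 2 / t ^ 2 := by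
        rw [mul_pow, sq_abs]
        ring
      rw [e2] at e1
      have e3 : 4 * ξ ^ 2 / t ^ 2 ≤ 4 * (1 + ξ ^ 2) / t := by
        rw [div_le_div_iff₀ (by positivity) ht0]
        have : t ≤ t ^ 2 := by nlinarith
        nlinarith [sq_nonneg ξ]
      have : 8 / t * (1 + ξ ^ 2) = 2 * (4 * (1 + ξ ^ 2) / t) := by ring
      rw [this]
      linarith
    have h5 : 8 / t * (1 + ξ ^ 2) ≤ 8 / c / Real.log T * (1 + ξ ^ 2) := by
      have e1 : 8 / t = 8 * (1 / t) := by ring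
      have e2 : 8 / c / Real.log T = 8 * (1 / c / Real.log T) := by ring
      rw [e1, e2]
      gcongr
    have h6 : 0 ≤ (C1 / c + 2 * Real.pi * D) / Real.log T * (1 + ξ ^ 2) := by positivity
    calc _ ≤ 2 := h1
      _ ≤ 8 / t * (1 + ξ ^ 2) := h4
      _ ≤ 8 / c / Real.log T * (1 + ξ ^ 2) := h5
      _ ≤ 8 / c / Real.log T * (1 + ξ ^ 2) + (C1 / c + 2 * Real.pi * D) / Real.log T * (1 + ξ ^ 2) := by
          linarith
      _ = (C1 / c + 8 / c + 2 * Real.pi * D) / Real.log T * (1 + ξ ^ 2) := by ring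

theorem t_PH (hZG : S_ZG) (hKB : S_KB) : S_PH := by
  intro k W hW c C hc hcC
  obtain ⟨K, T₀, hK, hT₀, hloc⟩ := local_bound c C hc hcC
  refine ⟨k * K, T₀, by positivity, ?_⟩
  intro T hT t ht1 ht2
  have hT7 : Real.exp 7 ≤ T := hT₀.trans hT
  obtain ⟨_, hker, hker2, _, _, _, _, hrefl, _⟩ := t_F W hW
  obtain ⟨K2, -, hKB2⟩ := hKB (2 * k + 2) k le_rfl _ hker2
  have hint2 := (hKB2 T hT7 _ (hZG k)).1 t
  have hpt : ∀ ξ : ℝ, uu (fun x => W (k - x)) ξ * zh (t - hh T * ξ) ^ k -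
      (starRingEnd ℂ) (Xh t) ^ k * (starRingEnd ℂ) (uu W ξ * zh (t - hh T * ξ) ^ k) =
      (starRingEnd ℂ) (uu W ξ * zh (t - hh T * ξ) ^ k) *
        (starRingEnd ℂ) ((cexp (((2 * Real.pi * ξ : ℝ) : ℂ) * I) * Xh (t - hh T * ξ)) ^ k - Xh t ^ k) := by
    intro ξ
    have h1 := (hrefl (k : ℝ)).2 ξ
    rw [h1]
    have h2 : zh (t - hh T * ξ) ^ k = (starRingEnd ℂ) (Xh (t - hh T * ξ)) ^ k *
        (starRingEnd ℂ) (zh (t - hh T * ξ) ^ k) := zh_pow_fe k _
    have h3 : (starRingEnd ℂ) (cexp (((2 * Real.pi * ξ : ℝ) : ℂ) * I)) ^ k =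
        cexp (-(2 * Real.pi * I * ((k : ℝ) : ℂ) * ξ)) := by
      rw [conj_exp_real, ← Complex.exp_nat_mul]
      congr 1
      push_cast
      ring
    have h5 : (starRingEnd ℂ) ((cexp (((2 * Real.pi * ξ : ℝ) : ℂ) * I) * Xh (t - hh T * ξ)) ^ k - Xh t ^ k) =
        cexp (-(2 * Real.pi * I * ((k : ℝ) : ℂ) * ξ)) * (starRingEnd ℂ) (Xh (t - hh T * ξ)) ^ k -
          (starRingEnd ℂ) (Xh t) ^ k := by
      rw [map_sub, map_pow, map_pow, map_mul, mul_pow, h3]
    rw [h5]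
    have h4 : cexp (-(2 * Real.pi * I * ((k : ℝ) : ℂ) * ξ)) * (starRingEnd ℂ) (uu W ξ) * zh (t - hh T * ξ) ^ k =
        cexp (-(2 * Real.pi * I * ((k : ℝ) : ℂ) * ξ)) * (starRingEnd ℂ) (uu W ξ) *
          ((starRingEnd ℂ) (Xh (t - hh T * ξ)) ^ k * (starRingEnd ℂ) (zh (t - hh T * ξ) ^ k)) := by
      rw [← h2]
    rw [h4, map_mul]
    ring
  have hAB1 : Integrable (fun ξ => uu (fun x => W (k - x)) ξ * zh (t - hh T * ξ) ^ k) := by
    obtain ⟨K3, -, hKB3⟩ := hKB (2 * k + 2) k le_rfl _ (t_F _ (hrefl (k : ℝ)).1).2.1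
    have h1 := (hKB3 T hT7 _ (hZG k)).1 t
    refine h1.mono' ?_ (Eventually.of_forall fun ξ => ?_)
    · refine (Continuous.mul ?_ ?_).aestronglyMeasurable
      · exact (t_F _ (hrefl (k : ℝ)).1).1
      · exact (hZG k).1.comp (by fun_prop : Continuous fun ξ : ℝ => t - hh T * ξ)
    · rw [norm_mul]
  have hAB2 : Integrable (fun ξ => uu W ξ * zh (t - hh T * ξ) ^ k) := by
    obtain ⟨K3, -, hKB3⟩ := hKB (2 * k + 2) k le_rfl _ hker
    have h1 := (hKB3 T hT7 _ (hZG k)).1 t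
    refine h1.mono' ?_ (Eventually.of_forall fun ξ => ?_)
    · refine (Continuous.mul ?_ ?_).aestronglyMeasurable
      · exact (t_F _ hW).1
      · exact (hZG k).1.comp (by fun_prop : Continuous fun ξ : ℝ => t - hh T * ξ)
    · rw [norm_mul]
  have hAB2c : Integrable (fun ξ => (starRingEnd ℂ) (uu W ξ * zh (t - hh T * ξ) ^ k)) := by
    refine hAB2.norm.mono' (Complex.continuous_conj.comp_aestronglyMeasurable hAB2.aestronglyMeasurable) ?_
    exact Eventually.of_forall fun ξ => by rw [RCLike.norm_conj]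
  have hAop2 : (starRingEnd ℂ) (Aop W T (fun t => zh t ^ k) t) =
      ∫ ξ, (starRingEnd ℂ) (uu W ξ * zh (t - hh T * ξ) ^ k) := by
    rw [Aop, ← integral_conj]
  show ‖Aop (fun x => W (k - x)) T (fun t => zh t ^ k) t -
      (starRingEnd ℂ) (Xh t) ^ k * (starRingEnd ℂ) (Aop W T (fun t => zh t ^ k) t)‖ ≤ _
  rw [hAop2, Aop, ← integral_const_mul, ← integral_sub hAB1 (hAB2c.const_mul _), Kop, ← integral_const_mul]
  refine norm_integral_le_of_norm_le (hint2.const_mul _) (Eventually.of_forall fun ξ => ?_)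
  rw [hpt, norm_mul, RCLike.norm_conj, RCLike.norm_conj, norm_mul]
  have hn1 : ‖cexp (((2 * Real.pi * ξ : ℝ) : ℂ) * I) * Xh (t - hh T * ξ)‖ = 1 := by
    rw [norm_mul, Complex.norm_exp_ofReal_mul_I, norm_Xh, one_mul]
  have h1 := pow_sub_le hn1 (norm_Xh t) k
  have h2 := hloc T hT t ht1 ht2 ξ
  calc ‖uu W ξ‖ * ‖zh (t - hh T * ξ) ^ k‖ * _
      ≤ ‖uu W ξ‖ * ‖zh (t - hh T * ξ) ^ k‖ * (k * (K / Real.log T * (1 + ξ ^ 2))) := by
        gcongr
        exact h1.trans (by gcongr)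
    _ = k * K / Real.log T * (‖uu W ξ‖ * (1 + ξ ^ 2) * ‖zh (t - hh T * ξ) ^ k‖) := by ring

end Pool.Agent.J6H59.CG
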